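import Mathlib

/-! # Packing subsets of large width into the binary cube (Q1 of MP_1a6900_co)

For every fixed `t ∈ (0,1]` the order of magnitude of `N(n,t)` is `2^n / n`. -/

namespace Pool.Agent.Results.MP_1a6900_co.WidthPackingOrder

open scoped RealInnerProductSpace BigOperators
open Finset

/-- The vertex set `Ω_n = {0,1}^n` of the unit cube. -/
def cube (n : ℕ) : Set (EuclideanSpace ℝ (Fin n)) := {x | ∀ i, x i = 0 ∨ x i = 1}

/-- The width of a set `C` in the direction `u`. -/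
noncomputable def dirWidth {n : ℕ} (C : Set (EuclideanSpace ℝ (Fin n)))
    (u : EuclideanSpace ℝ (Fin n)) : ℝ :=
  sSup ((fun x => ⟪u, x⟫) '' C) - sInf ((fun x => ⟪u, x⟫) '' C)

/-- The (minimum) width of a convex set `C`: the minimum of the directional widths over all unit
vectors. -/
noncomputable def width {n : ℕ} (C : Set (EuclideanSpace ℝ (Fin n))) : ℝ :=
  sInf {w | ∃ u : EuclideanSpace ℝ (Fin n), ‖u‖ = 1 ∧ w = dirWidth C u}

/-- `F` is a packing of `m` sets into `Ω_n` (pairwise disjoint nonempty subsets), every member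
having Euclidean width at least `t`. -/
def IsWidthPacking (n : ℕ) (t : ℝ) (m : ℕ) (F : Fin m → Set (EuclideanSpace ℝ (Fin n))) : Prop :=
  (∀ i, (F i).Nonempty) ∧ (∀ i, F i ⊆ cube n) ∧ (∀ i j, i ≠ j → Disjoint (F i) (F j)) ∧
    ∀ i, t ≤ width (convexHull ℝ (F i))

/-- `N(n,t)`: the largest number of members of a packing of `Ω_n` in which every member has
width at least `t`. -/
noncomputable def N (n : ℕ) (t : ℝ) : ℕ :=
  sSup {m : ℕ | ∃ F : Fin m → Set (EuclideanSpace ℝ (Fin n)), IsWidthPacking n t m F}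

/-! ### Directional widths of finite sets -/

theorem image_convexHull_bounds {n : ℕ} (A : Set (EuclideanSpace ℝ (Fin n)))
    (u : EuclideanSpace ℝ (Fin n)) (a b : ℝ) (h : ∀ x ∈ A, a ≤ ⟪u, x⟫ ∧ ⟪u, x⟫ ≤ b) :
    ∀ x ∈ convexHull ℝ A, a ≤ ⟪u, x⟫ ∧ ⟪u, x⟫ ≤ b := by
  have hconv : Convex ℝ {x : EuclideanSpace ℝ (Fin n) | a ≤ ⟪u, x⟫ ∧ ⟪u, x⟫ ≤ b} := by
    have h1 : Convex ℝ {x : EuclideanSpace ℝ (Fin n) | a ≤ ⟪u, x⟫} :=
      convex_halfSpace_ge (f := fun x => ⟪u, x⟫)
        ⟨fun x y => inner_add_right _ _ _, fun c x => by simp [inner_smul_right]⟩ a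
    have h2 : Convex ℝ {x : EuclideanSpace ℝ (Fin n) | ⟪u, x⟫ ≤ b} :=
      convex_halfSpace_le (f := fun x => ⟪u, x⟫)
        ⟨fun x y => inner_add_right _ _ _, fun c x => by simp [inner_smul_right]⟩ b
    exact h1.inter h2
  intro x hx
  exact (convexHull_min (show A ⊆ {x | a ≤ ⟪u, x⟫ ∧ ⟪u, x⟫ ≤ b} from h) hconv) hx

/-- Lower bound: if the points `x y` of `A ⊆ Ω_n` satisfy `⟪u,x⟫ - ⟪u,y⟫ ≥ s` then the directional
width of the hull is at least `s`. -/
theorem le_dirWidth {n : ℕ} (A : Set (EuclideanSpace ℝ (Fin n))) (hA : A ⊆ cube n)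
    (u : EuclideanSpace ℝ (Fin n)) (s : ℝ) (x y : EuclideanSpace ℝ (Fin n)) (hx : x ∈ A)
    (hy : y ∈ A) (h : s ≤ ⟪u, x⟫ - ⟪u, y⟫) : s ≤ dirWidth (convexHull ℝ A) u := by
  have hb : ∀ x ∈ cube n, -(∑ i, |u i|) ≤ ⟪u, x⟫ ∧ ⟪u, x⟫ ≤ ∑ i, |u i| := by
    intro x hx
    have h1 : |⟪u, x⟫| ≤ ∑ i, |u i| := by
      rw [PiLp.inner_apply]
      refine (Finset.abs_sum_le_sum_abs _ _).trans (Finset.sum_le_sum fun i _ => ?_)
      rcases hx i with h0 | h0
      · simp [h0]
      · simp [h0]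
    exact abs_le.mp h1
  have hb' := image_convexHull_bounds A u _ _ (fun x hx => hb x (hA hx))
  have hbdd1 : BddAbove ((fun x => ⟪u, x⟫) '' (convexHull ℝ A)) := by
    refine ⟨∑ i, |u i|, ?_⟩
    rintro _ ⟨z, hz, rfl⟩
    exact (hb' z hz).2
  have hbdd2 : BddBelow ((fun x => ⟪u, x⟫) '' (convexHull ℝ A)) := by
    refine ⟨-∑ i, |u i|, ?_⟩
    rintro _ ⟨z, hz, rfl⟩
    exact (hb' z hz).1
  have h1 : ⟪u, x⟫ ≤ sSup ((fun x => ⟪u, x⟫) '' (convexHull ℝ A)) :=
    le_csSup hbdd1 ⟨x, subset_convexHull ℝ A hx, rfl⟩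
  have h2 : sInf ((fun x => ⟪u, x⟫) '' (convexHull ℝ A)) ≤ ⟪u, y⟫ :=
    csInf_le hbdd2 ⟨y, subset_convexHull ℝ A hy, rfl⟩
  unfold dirWidth
  linarith

theorem dirWidth_of_const {n : ℕ} (A : Set (EuclideanSpace ℝ (Fin n))) (hne : A.Nonempty)
    (u : EuclideanSpace ℝ (Fin n)) (c : ℝ) (h : ∀ x ∈ A, ⟪u, x⟫ = c) :
    dirWidth (convexHull ℝ A) u = 0 := by
  have h' := image_convexHull_bounds A u c c (fun x hx => ⟨(h x hx).ge, (h x hx).le⟩)
  have himg : (fun x => ⟪u, x⟫) '' (convexHull ℝ A) = {c} := by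
    apply Set.eq_singleton_iff_nonempty_unique_mem.mpr
    refine ⟨(hne.mono (subset_convexHull ℝ A)).image _, ?_⟩
    rintro _ ⟨z, hz, rfl⟩
    exact le_antisymm (h' z hz).2 (h' z hz).1
  unfold dirWidth
  rw [himg]
  simp

theorem dirWidth_nonneg {n : ℕ} (A : Set (EuclideanSpace ℝ (Fin n))) (hA : A ⊆ cube n)
    (hne : A.Nonempty) (u : EuclideanSpace ℝ (Fin n)) : 0 ≤ dirWidth (convexHull ℝ A) u := by
  obtain ⟨x, hx⟩ := hne
  exact le_dirWidth A hA u 0 x x hx hx (by simp)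

/-- A set of at most `n` points of the cube has width `0`. -/
theorem width_nonpos_of_small {n : ℕ} (A : Set (EuclideanSpace ℝ (Fin n))) (hA : A ⊆ cube n)
    (hne : A.Nonempty) (hfin : A.Finite) (hcard : A.ncard ≤ n) :
    width (convexHull ℝ A) ≤ 0 := by
  classical
  obtain ⟨x0, hx0⟩ := hne
  -- the direction space of `A` is proper
  have hcpos : 0 < A.ncard := (Set.ncard_pos hfin).mpr ⟨x0, hx0⟩
  have hdim : Module.finrank ℝ (vectorSpan ℝ A) ≤ n - 1 := by
    have h1 := finrank_vectorSpan_image_finset_le ℝ (fun x : EuclideanSpace ℝ (Fin n) => x)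
      hfin.toFinset (n := A.ncard - 1) (by
        rw [← Set.ncard_eq_toFinset_card A hfin]; omega)
    rw [Finset.coe_image, Set.Finite.coe_toFinset, Set.image_id'] at h1
    omega
  have hlt : Module.finrank ℝ (vectorSpan ℝ A) < Module.finrank ℝ (EuclideanSpace ℝ (Fin n)) := by
    rw [finrank_euclideanSpace_fin]; omega
  have hne_top : vectorSpan ℝ A ≠ ⊤ := by
    intro htop
    rw [htop, finrank_top] at hlt
    exact lt_irrefl _ hlt
  have hperp : (vectorSpan ℝ A)ᗮ ≠ ⊥ := by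
    intro h
    exact hne_top ((Submodule.orthogonal_eq_bot_iff).mp h)
  obtain ⟨v, hv, hv0⟩ := Submodule.exists_mem_ne_zero_of_ne_bot hperp
  have hnorm : ‖v‖ ≠ 0 := norm_ne_zero_iff.mpr hv0
  set u : EuclideanSpace ℝ (Fin n) := (‖v‖)⁻¹ • v with hu
  have hu1 : ‖u‖ = 1 := by
    rw [hu, norm_smul, norm_inv, norm_norm, inv_mul_cancel₀ hnorm]
  have hconst : ∀ x ∈ A, ⟪u, x⟫ = ⟪u, x0⟫ := by
    intro x hx
    have h1 : x -ᵥ x0 ∈ vectorSpan ℝ A := vsub_mem_vectorSpan ℝ hx hx0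
    have h2 : ⟪v, x -ᵥ x0⟫ = 0 := Submodule.inner_left_of_mem_orthogonal h1 hv
    have h3 : ⟪v, x⟫ = ⟪v, x0⟫ := by
      have : ⟪v, x - x0⟫ = 0 := h2
      rw [inner_sub_right] at this
      linarith
    rw [hu, real_inner_smul_left, real_inner_smul_left, h3]
  have h0 : dirWidth (convexHull ℝ A) u = 0 := dirWidth_of_const A ⟨x0, hx0⟩ u _ hconst
  unfold width
  apply csInf_le
  · refine ⟨0, ?_⟩
    rintro w ⟨u', _, rfl⟩
    exact dirWidth_nonneg A hA ⟨x0, hx0⟩ u'
  · exact ⟨u, hu1, h0.symm⟩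

/-! ### Characters of `F_2^k` -/

/-- `sgn 0 = 1`, `sgn 1 = -1` on `ZMod 2`. -/
def sgn (x : ZMod 2) : ℝ := 1 - 2 * (x.val : ℝ)

theorem sgn_zero : sgn 0 = 1 := by simp [sgn]

theorem sgn_one : sgn 1 = -1 := by
  have : (1 : ZMod 2).val = 1 := rfl
  simp [sgn, this]; norm_num

theorem zmod_cases (x : ZMod 2) : x = 0 ∨ x = 1 := by
  revert x
  decide

theorem sgn_add (x y : ZMod 2) : sgn (x + y) = sgn x * sgn y := by
  have h1 : ((1 : ZMod 2) + 1) = 0 := rfl
  rcases zmod_cases x with rfl | rfl <;> rcases zmod_cases y with rfl | rfl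
  · rw [add_zero, sgn_zero, mul_one]
  · rw [zero_add, sgn_zero, one_mul]
  · rw [add_zero, sgn_zero, mul_one]
  · rw [h1, sgn_zero, sgn_one]; norm_num

theorem sgn_sq (x : ZMod 2) : sgn x * sgn x = 1 := by
  rcases zmod_cases x with rfl | rfl
  · rw [sgn_zero, mul_one]
  · rw [sgn_one]; norm_num

theorem val_eq (x : ZMod 2) : (x.val : ℝ) = (1 - sgn x) / 2 := by
  unfold sgn; ring

theorem eq_one_of_ne_zero (x : ZMod 2) (h : x ≠ 0) : x = 1 := by
  rcases zmod_cases x with rfl | rfl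
  · exact absurd rfl h
  · rfl

theorem sum_sgn_eq_zero {k : ℕ} (x : Fin k → ZMod 2) (hx : x ≠ 0) :
    ∑ v : Fin k → ZMod 2, sgn (v ⬝ᵥ x) = 0 := by
  obtain ⟨j, hj⟩ := Function.ne_iff.mp hx
  have hj1 : x j = 1 := eq_one_of_ne_zero _ hj
  set e : Fin k → ZMod 2 := Pi.single j 1 with he
  have hex : e ⬝ᵥ x = 1 := by
    rw [he, single_dotProduct, hj1, one_mul]
  have h2 : ∀ v : Fin k → ZMod 2, sgn (v ⬝ᵥ x) = - sgn ((v + e) ⬝ᵥ x) := by
    intro v
    rw [add_dotProduct, hex, sgn_add, sgn_one]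
    ring
  have h1 : ∑ v : Fin k → ZMod 2, sgn (v ⬝ᵥ x) = ∑ v : Fin k → ZMod 2, - sgn (v ⬝ᵥ x) := by
    refine Fintype.sum_equiv (Equiv.addRight e) _ _ ?_
    intro v
    exact h2 v
  rw [Finset.sum_neg_distrib] at h1
  linarith

/-- A function `∑ w_i χ_i` with distinct nontrivial characters `χ_i` and `∑ w_i² = 1/4` oscillates
by at least `1`. -/
theorem exists_large_osc {n k : ℕ} (G : Fin n → (Fin k → ZMod 2)) (hinj : Function.Injective G)
    (hG : ∀ i, G i ≠ 0) (w : Fin n → ℝ) (hw : ∑ i, w i ^ 2 = 1 / 4) :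
    ∃ v1 v2 : Fin k → ZMod 2,
      1 ≤ ∑ i, w i * sgn (v1 ⬝ᵥ G i) - ∑ i, w i * sgn (v2 ⬝ᵥ G i) := by
  set h : (Fin k → ZMod 2) → ℝ := fun v => ∑ i, w i * sgn (v ⬝ᵥ G i) with hh
  obtain ⟨v1, _, hv1⟩ := Finset.exists_max_image (Finset.univ : Finset (Fin k → ZMod 2)) h
    ⟨0, Finset.mem_univ _⟩
  obtain ⟨v2, _, hv2⟩ := Finset.exists_min_image (Finset.univ : Finset (Fin k → ZMod 2)) h
    ⟨0, Finset.mem_univ _⟩
  refine ⟨v1, v2, ?_⟩
  change 1 ≤ h v1 - h v2
  have hcard : (Fintype.card (Fin k → ZMod 2) : ℝ) > 0 := by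
    exact_mod_cast Fintype.card_pos
  set Q : ℝ := (Fintype.card (Fin k → ZMod 2) : ℝ) with hQ
  have hsum0 : ∑ v, h v = 0 := by
    simp only [hh]
    rw [Finset.sum_comm]
    apply Finset.sum_eq_zero
    intro i _
    rw [← Finset.mul_sum, sum_sgn_eq_zero (G i) (hG i), mul_zero]
  have hsum2 : ∑ v, h v ^ 2 = Q * (1 / 4) := by
    have e1 : ∀ v, h v ^ 2 = ∑ i, ∑ j, w i * w j * sgn (v ⬝ᵥ (G i + G j)) := by
      intro v
      simp only [hh]
      rw [sq, Finset.sum_mul_sum]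
      refine Finset.sum_congr rfl fun i _ => Finset.sum_congr rfl fun j _ => ?_
      rw [dotProduct_add, sgn_add]
      ring
    simp only [e1]
    rw [Finset.sum_comm]
    have e2 : ∀ i, ∑ v : Fin k → ZMod 2, ∑ j, w i * w j * sgn (v ⬝ᵥ (G i + G j)) =
        Q * w i ^ 2 := by
      intro i
      rw [Finset.sum_comm]
      rw [Finset.sum_eq_single i]
      · have e3 : G i + G i = 0 := by
          funext a
          have : ∀ z : ZMod 2, z + z = 0 := by decide
          exact this _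
        simp only [e3, dotProduct_zero, sgn_zero, mul_one]
        rw [Finset.sum_const, Finset.card_univ, nsmul_eq_mul]
        ring
      · intro j _ hji
        rw [← Finset.mul_sum, sum_sgn_eq_zero, mul_zero]
        intro h0
        apply hji
        apply hinj
        have e4 : ∀ z y : ZMod 2, z + y = 0 → y = z := by decide
        funext a
        exact e4 _ _ (congrFun h0 a)
      · intro hni
        exact absurd (Finset.mem_univ i) hni
    rw [Finset.sum_congr rfl (fun i _ => e2 i), ← Finset.mul_sum, hw]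
  have hpos : 0 ≤ ∑ v, (h v1 - h v) * (h v - h v2) := by
    apply Finset.sum_nonneg
    intro v _
    exact mul_nonneg (sub_nonneg.mpr (hv1 v (Finset.mem_univ _)))
      (sub_nonneg.mpr (hv2 v (Finset.mem_univ _)))
  have hexp : ∑ v, (h v1 - h v) * (h v - h v2) =
      (h v1 + h v2) * ∑ v, h v - ∑ v, h v ^ 2 - Q * (h v1 * h v2) := by
    have : ∀ v, (h v1 - h v) * (h v - h v2) = (h v1 + h v2) * h v - h v ^ 2 - h v1 * h v2 := by
      intro v; ring
    simp only [this]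
    rw [Finset.sum_sub_distrib, Finset.sum_sub_distrib, ← Finset.mul_sum, Finset.sum_const,
      Finset.card_univ, nsmul_eq_mul]
  rw [hexp, hsum0, hsum2] at hpos
  have h3 : h v1 * h v2 ≤ -(1 / 4) := by
    have : 0 ≤ Q * (-(1 / 4) - h v1 * h v2) := by linarith
    have := nonneg_of_mul_nonneg_right this hcard
    linarith
  have h4 : h v2 ≤ h v1 := hv1 v2 (Finset.mem_univ _)
  nlinarith [sq_nonneg (h v1 + h v2)]

/-- The embedding of `F_2^n` as the vertex set of the cube. -/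
noncomputable def emb {n : ℕ} (z : Fin n → ZMod 2) : EuclideanSpace ℝ (Fin n) :=
  WithLp.toLp 2 (fun i => ((z i).val : ℝ))

theorem emb_mem_cube {n : ℕ} (z : Fin n → ZMod 2) : emb z ∈ cube n := by
  intro i
  have h1 : (1 : ZMod 2).val = 1 := rfl
  show ((z i).val : ℝ) = 0 ∨ ((z i).val : ℝ) = 1
  rcases zmod_cases (z i) with h | h
  · left; rw [h]; simp
  · right; rw [h, h1]; simp

theorem emb_injective {n : ℕ} : Function.Injective (emb (n := n)) := by
  intro a b hab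
  funext i
  have h1 : emb a i = emb b i := by rw [hab]
  simp only [emb] at h1
  have h2 : (a i).val = (b i).val := by exact_mod_cast h1
  exact ZMod.val_injective 2 h2

theorem inner_emb {n : ℕ} (u : EuclideanSpace ℝ (Fin n)) (z : Fin n → ZMod 2) :
    ⟪u, emb z⟫ = (∑ i, u i) / 2 + ∑ i, (-(u i) / 2) * sgn (z i) := by
  rw [PiLp.inner_apply, Finset.sum_div, ← Finset.sum_add_distrib]
  refine Finset.sum_congr rfl fun i _ => ?_
  simp only [emb, RCLike.inner_apply, conj_trivial]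
  rw [val_eq]
  ring

/-- The linear code `v ↦ (⟨v, G i⟩)_i`. -/
def code {n k : ℕ} (G : Fin n → (Fin k → ZMod 2)) : (Fin k → ZMod 2) →+ (Fin n → ZMod 2) where
  toFun v := fun i => v ⬝ᵥ G i
  map_zero' := by funext i; simp
  map_add' a b := by funext i; simp [add_dotProduct]

/-- Every translate of the code has width at least `1`. -/
theorem one_le_width_coset {n k : ℕ} (hn : 1 ≤ n) (G : Fin n → (Fin k → ZMod 2))
    (hinj : Function.Injective G) (hG : ∀ i, G i ≠ 0) (a : Fin n → ZMod 2)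
    (A : Set (EuclideanSpace ℝ (Fin n))) (hA : A ⊆ cube n)
    (hmem : ∀ v, emb (a + code G v) ∈ A) : 1 ≤ width (convexHull ℝ A) := by
  unfold width
  apply le_csInf
  · have : Nonempty (Fin n) := ⟨⟨0, hn⟩⟩
    refine ⟨_, EuclideanSpace.single ⟨0, hn⟩ (1 : ℝ), ?_, rfl⟩
    simp
  · rintro w ⟨u, hu, rfl⟩
    have hsq : ∑ i, (-(u i) / 2 * sgn (a i)) ^ 2 = 1 / 4 := by
      have h1 : ∀ i, (-(u i) / 2 * sgn (a i)) ^ 2 = (u i) ^ 2 / 4 := by
        intro i
        have := sgn_sq (a i)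
        calc (-(u i) / 2 * sgn (a i)) ^ 2 = (u i) ^ 2 / 4 * (sgn (a i) * sgn (a i)) := by ring
          _ = (u i) ^ 2 / 4 := by rw [this, mul_one]
      simp only [h1]
      rw [← Finset.sum_div]
      have h2 : ‖u‖ ^ 2 = ∑ i, (u i) ^ 2 := by
        rw [EuclideanSpace.norm_eq, Real.sq_sqrt (Finset.sum_nonneg fun i _ => by positivity)]
        simp
      rw [← h2, hu]
      norm_num
    obtain ⟨v1, v2, h12⟩ := exists_large_osc G hinj hG _ hsq
    refine le_dirWidth A hA u 1 _ _ (hmem v1) (hmem v2) ?_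
    rw [inner_emb, inner_emb]
    have e : ∀ v, ∑ i, (-(u i) / 2) * sgn ((a + code G v) i) =
        ∑ i, (-(u i) / 2 * sgn (a i)) * sgn (v ⬝ᵥ G i) := by
      intro v
      refine Finset.sum_congr rfl fun i _ => ?_
      rw [Pi.add_apply, sgn_add]
      simp only [code, AddMonoidHom.coe_mk, ZeroHom.coe_mk]
      ring
    rw [e, e]
    linarith

/-! ### Upper bound -/

theorem cube_eq_range {n : ℕ} : cube n = Set.range (emb (n := n)) := by
  apply Set.Subset.antisymm
  · intro x hx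
    refine ⟨fun i => if x i = 0 then 0 else 1, ?_⟩
    have h1 : (1 : ZMod 2).val = 1 := rfl
    ext i
    show (((if x i = 0 then (0 : ZMod 2) else 1).val : ℕ) : ℝ) = x i
    rcases hx i with h | h
    · rw [if_pos h, h]; simp
    · rw [if_neg (by rw [h]; norm_num), h, h1]; simp
  · rintro _ ⟨z, rfl⟩
    exact emb_mem_cube z

theorem packing_card_le {n m : ℕ} {t : ℝ} (ht : 0 < t)
    (F : Fin m → Set (EuclideanSpace ℝ (Fin n))) (hF : IsWidthPacking n t m F) :
    m * (n + 1) ≤ 2 ^ n := by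
  classical
  obtain ⟨hne, hsub, hdisj, hwid⟩ := hF
  have hrange : (Set.range (emb (n := n))).Finite := Set.finite_range _
  have hfin : ∀ i, (F i).Finite := fun i =>
    hrange.subset (by rw [← cube_eq_range]; exact hsub i)
  have hcard : ∀ i, n + 1 ≤ (F i).ncard := by
    intro i
    by_contra hlt
    have h1 := width_nonpos_of_small (F i) (hsub i) (hne i) (hfin i) (by omega)
    have h2 := hwid i
    linarith
  set P : Fin m → Finset (Fin n → ZMod 2) := fun i => Finset.univ.filter (fun z => emb z ∈ F i)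
    with hP
  have hPcard : ∀ i, n + 1 ≤ (P i).card := by
    intro i
    have himg : emb '' (P i : Set (Fin n → ZMod 2)) = F i := by
      apply Set.Subset.antisymm
      · rintro _ ⟨z, hz, rfl⟩
        have : z ∈ P i := hz
        simpa [hP] using this
      · intro x hx
        have hx' : x ∈ Set.range (emb (n := n)) := by rw [← cube_eq_range]; exact hsub i hx
        obtain ⟨z, rfl⟩ := hx'
        exact ⟨z, by simpa [hP] using hx, rfl⟩
    have h1 := hcard i
    rw [← himg, Set.ncard_image_of_injective _ emb_injective, Set.ncard_coe_finset] at h1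
    exact h1
  have hPdisj : ∀ i ∈ (Finset.univ : Finset (Fin m)), ∀ j ∈ (Finset.univ : Finset (Fin m)),
      i ≠ j → Disjoint (P i) (P j) := by
    intro i _ j _ hij
    rw [Finset.disjoint_left]
    intro z hz hz'
    have h1 : emb z ∈ F i := by simpa [hP] using hz
    have h2 : emb z ∈ F j := by simpa [hP] using hz'
    exact Set.disjoint_left.mp (hdisj i j hij) h1 h2
  have h3 : (Finset.univ.biUnion P).card = ∑ i, (P i).card := Finset.card_biUnion hPdisj
  have h4 : (Finset.univ.biUnion P).card ≤ 2 ^ n := by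
    refine (Finset.card_le_univ _).trans ?_
    simp [ZMod.card]
  calc m * (n + 1) = ∑ _i : Fin m, (n + 1) := by simp
    _ ≤ ∑ i, (P i).card := Finset.sum_le_sum fun i _ => hPcard i
    _ ≤ 2 ^ n := by rw [← h3]; exact h4

/-! ### Lower bound -/

theorem exists_packing {n k : ℕ} (hn : 1 ≤ n) (hk : n + 1 ≤ 2 ^ k) {t : ℝ} (ht1 : t ≤ 1) :
    ∃ m : ℕ, 2 ^ n ≤ m * 2 ^ k ∧
      ∃ F : Fin m → Set (EuclideanSpace ℝ (Fin n)), IsWidthPacking n t m F := by
  classical
  -- `n` distinct nonzero columns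
  have hc : Fintype.card (Fin n) ≤ Fintype.card {v : Fin k → ZMod 2 // v ≠ 0} := by
    rw [Fintype.card_subtype_compl, Fintype.card_fin]
    simp [ZMod.card]
    omega
  obtain ⟨G0⟩ := Function.Embedding.nonempty_of_card_le hc
  set G : Fin n → (Fin k → ZMod 2) := fun i => (G0 i).1 with hGdef
  have hinj : Function.Injective G := fun i j h => G0.injective (Subtype.ext h)
  have hG : ∀ i, G i ≠ 0 := fun i => (G0 i).2
  set C : AddSubgroup (Fin n → ZMod 2) := (code G).range with hC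
  have hCcard : Nat.card C ≤ 2 ^ k := by
    have h1 : Nat.card C ≤ Nat.card (Fin k → ZMod 2) :=
      Nat.card_le_card_of_surjective (code G).rangeRestrict (code G).rangeRestrict_surjective
    refine h1.trans ?_
    simp [Nat.card_eq_fintype_card, ZMod.card]
  have hindex : Nat.card C * C.index = 2 ^ n := by
    rw [AddSubgroup.card_mul_index]
    simp [Nat.card_eq_fintype_card, ZMod.card]
  refine ⟨C.index, ?_, ?_⟩
  · rw [← hindex, mul_comm]
    exact Nat.mul_le_mul_left _ hCcard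
  · have e : Fin C.index ≃ (Fin n → ZMod 2) ⧸ C := (Finite.equivFin _).symm
    refine ⟨fun i => emb '' {z | (QuotientAddGroup.mk z : (Fin n → ZMod 2) ⧸ C) = e i},
      ?_, ?_, ?_, ?_⟩
    · intro i
      obtain ⟨a, ha⟩ := QuotientAddGroup.mk_surjective (e i)
      exact ⟨emb a, a, ha, rfl⟩
    · rintro i _ ⟨z, _, rfl⟩
      exact emb_mem_cube z
    · intro i j hij
      rw [Set.disjoint_left]
      rintro _ ⟨z, hz, rfl⟩ ⟨z', hz', hzz'⟩
      have h1 : z' = z := emb_injective hzz'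
      subst h1
      apply hij
      apply e.injective
      rw [← show (QuotientAddGroup.mk z' : (Fin n → ZMod 2) ⧸ C) = e i from hz]
      exact hz'
    · intro i
      obtain ⟨a, ha⟩ := QuotientAddGroup.mk_surjective (e i)
      refine ht1.trans (one_le_width_coset hn G hinj hG a _ ?_ ?_)
      · rintro _ ⟨z, _, rfl⟩
        exact emb_mem_cube z
      · intro v
        refine ⟨a + code G v, ?_, rfl⟩
        show (QuotientAddGroup.mk (a + code G v) : (Fin n → ZMod 2) ⧸ C) = e i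
        rw [← ha]
        exact QuotientAddGroup.mk_add_of_mem a ⟨v, rfl⟩

/-! ### The function `N` -/

theorem bddAbove_packings (n : ℕ) {t : ℝ} (ht : 0 < t) :
    BddAbove {m : ℕ | ∃ F : Fin m → Set (EuclideanSpace ℝ (Fin n)), IsWidthPacking n t m F} := by
  refine ⟨2 ^ n, ?_⟩
  rintro m ⟨F, hF⟩
  have := packing_card_le ht F hF
  exact (Nat.le_mul_of_pos_right m (Nat.succ_pos n)).trans this

/-- The supremum defining `N(n,t)` is attained (for `t > 0`): `N(n,t)` is a maximum. -/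
theorem N_attained (n : ℕ) {t : ℝ} (ht : 0 < t) :
    ∃ F : Fin (N n t) → Set (EuclideanSpace ℝ (Fin n)), IsWidthPacking n t (N n t) F := by
  have hne : {m : ℕ | ∃ F : Fin m → Set (EuclideanSpace ℝ (Fin n)),
      IsWidthPacking n t m F}.Nonempty :=
    ⟨0, fun i => i.elim0, fun i => i.elim0, fun i => i.elim0, fun i => i.elim0, fun i => i.elim0⟩
  exact Nat.sSup_mem hne (bddAbove_packings n ht)

theorem N_mul_le (n : ℕ) {t : ℝ} (ht : 0 < t) : N n t * (n + 1) ≤ 2 ^ n := by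
  obtain ⟨F, hF⟩ := N_attained n ht
  exact packing_card_le ht F hF

theorem le_N_mul {n k : ℕ} (hn : 1 ≤ n) (hk : n + 1 ≤ 2 ^ k) {t : ℝ} (ht : 0 < t)
    (ht1 : t ≤ 1) : 2 ^ n ≤ N n t * 2 ^ k := by
  obtain ⟨m, hm, F, hF⟩ := exists_packing hn hk ht1
  have h1 : m ≤ N n t := le_csSup (bddAbove_packings n ht) ⟨F, hF⟩
  exact hm.trans (Nat.mul_le_mul_right _ h1)

theorem le_N_mul' {n : ℕ} (hn : 1 ≤ n) {t : ℝ} (ht : 0 < t)
    (ht1 : t ≤ 1) : 2 ^ n ≤ N n t * (2 * n) := by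
  have h1 : n + 1 ≤ 2 ^ (Nat.log 2 n + 1) := Nat.lt_pow_succ_log_self (by norm_num) n
  have h2 : 2 ^ Nat.log 2 n ≤ n := Nat.pow_log_le_self 2 (by omega)
  have h3 := le_N_mul hn h1 ht ht1
  refine h3.trans (Nat.mul_le_mul_left _ ?_)
  rw [pow_succ]
  omega

/-- **Answer to Q1.** For every fixed `t ∈ (0,1]`, the largest number `N(n,t)` of pairwise disjoint
subsets of `{0,1}^n` of Euclidean width at least `t` has order of magnitude `2^n / n`; explicitly
`2^n/(2n) ≤ N(n,t) ≤ 2^n/(n+1)` for all `n ≥ 1`, with `N(n,t) = 2^n/(n+1)` whenever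
`n = 2^k - 1`. -/
theorem result (t : ℝ) (ht0 : 0 < t) (ht1 : t ≤ 1) :
    ((fun n : ℕ => (N n t : ℝ)) =Θ[Filter.atTop] (fun n : ℕ => (2 : ℝ) ^ n / n)) ∧
    (∀ n : ℕ, 1 ≤ n → (2 : ℝ) ^ n / (2 * n) ≤ N n t ∧ (N n t : ℝ) ≤ 2 ^ n / (n + 1)) ∧
    (∀ k n : ℕ, 1 ≤ k → n = 2 ^ k - 1 → (N n t : ℝ) = 2 ^ n / (n + 1)) := by
  have hlow : ∀ n : ℕ, 1 ≤ n → (2 : ℝ) ^ n / (2 * n) ≤ N n t := by
    intro n hn
    have h1 : (2 : ℝ) ^ n ≤ N n t * (2 * n) := by exact_mod_cast le_N_mul' hn ht0 ht1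
    have hpos : (0 : ℝ) < 2 * n := by
      have : (1 : ℝ) ≤ n := by exact_mod_cast hn
      linarith
    rw [div_le_iff₀ hpos]
    exact h1
  have hup : ∀ n : ℕ, (N n t : ℝ) ≤ 2 ^ n / (n + 1) := by
    intro n
    have h1 : (N n t : ℝ) * (n + 1) ≤ 2 ^ n := by exact_mod_cast N_mul_le n ht0
    have hpos : (0 : ℝ) < (n : ℝ) + 1 := by positivity
    rw [le_div_iff₀ hpos]
    exact h1
  refine ⟨⟨?_, ?_⟩, fun n hn => ⟨hlow n hn, hup n⟩, ?_⟩
  · apply Asymptotics.IsBigO.of_bound 1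
    filter_upwards [Filter.eventually_ge_atTop 1] with n hn
    have hn' : (1 : ℝ) ≤ n := by exact_mod_cast hn
    rw [Real.norm_of_nonneg (by positivity), Real.norm_of_nonneg (by positivity), one_mul]
    refine (hup n).trans ?_
    apply div_le_div_of_nonneg_left (by positivity) (by linarith) (by linarith)
  · apply Asymptotics.IsBigO.of_bound 2
    filter_upwards [Filter.eventually_ge_atTop 1] with n hn
    have hn' : (1 : ℝ) ≤ n := by exact_mod_cast hn
    rw [Real.norm_of_nonneg (by positivity), Real.norm_of_nonneg (by positivity)]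
    have h1 := hlow n hn
    have h2 : (2 : ℝ) ^ n / n = 2 * ((2 : ℝ) ^ n / (2 * n)) := by
      field_simp
    rw [h2]
    linarith
  · intro k n hk hnk
    have h2k : 2 ≤ 2 ^ k := by
      calc 2 = 2 ^ 1 := by norm_num
        _ ≤ 2 ^ k := Nat.pow_le_pow_right (by norm_num) hk
    have hn1 : 1 ≤ n := by omega
    have hnk' : n + 1 = 2 ^ k := by omega
    have h1 : (2 : ℝ) ^ n ≤ N n t * (n + 1) := by
      have := le_N_mul hn1 hnk'.le ht0 ht1
      rw [← hnk'] at this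
      exact_mod_cast this
    have hpos : (0 : ℝ) < (n : ℝ) + 1 := by positivity
    apply le_antisymm (hup n)
    rw [div_le_iff₀ hpos]
    exact h1

end Pool.Agent.Results.MP_1a6900_co.WidthPackingOrder
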